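import Pool.Agent.SGE.Stmts

/-!
# Squad SGE, module SW0: the first state of the sweep
-/

noncomputable section

namespace Pool.Agent.SGE.H2

theorem con_pair {V : Type} {a b p q : V} (h : Con [a, b] p q) : p = a ∧ q = b := by
  obtain ⟨P, Q, h⟩ := h
  match P, h with
  | [], h =>
    simp only [List.nil_append, List.cons.injEq] at h
    exact ⟨h.1.symm, h.2.1.symm⟩
  | [x], h =>
    simp at h
  | x :: y :: P', h =>
    simp at h

/-- SW0. -/
theorem sw0 (hnt : Nt0Stmt) (hul : HulStmt) : Sw0Stmt := by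
  intro V _ f T a b c hT hO
  have hab : a ≠ b := by
    rintro rfl
    exact absurd (hO.xa c hO.ac.symm) (not_lt.2 (hO.xb c hO.bc.symm).le)
  obtain ⟨tab, -, -⟩ := hul hT hO
  have hlt : (f a).1 < (f b).1 := hO.xa b hab.symm
  refine ⟨hnt hab, ?_, ?_, ?_, ?_, ?_, ?_, ?_, ?_⟩
  · rintro u v (⟨rfl, rfl⟩ | ⟨rfl, rfl⟩)
    · exact tab
    · exact hT.sym _ _ tab
  · simpa using hlt
  · intro p q hpq z x hzx h1 h2
    obtain ⟨rfl, rfl⟩ := con_pair hpq
    rcases hzx with ⟨rfl, -⟩ | ⟨rfl, -⟩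
    · exact absurd h1 (lt_irrefl _)
    · exact absurd h2 (lt_irrefl _)
  · intro p q hpq z hz h1 h2
    obtain ⟨rfl, rfl⟩ := con_pair hpq
    refine hO.oab z ?_ ?_
    · rintro rfl
      exact absurd h1 (lt_irrefl _)
    · rintro rfl
      exact absurd h2 (lt_irrefl _)
  · intro u w huw p hp h1 h2
    simp only [List.mem_cons, List.not_mem_nil, or_false] at hp
    rcases huw with ⟨rfl, rfl⟩ | ⟨rfl, rfl⟩
    · rcases hp with rfl | rfl
      · exact absurd h1 (lt_irrefl _)
      · exact absurd h2 (lt_irrefl _)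
    · rcases hp with rfl | rfl
      · exact absurd h2 (lt_irrefl _)
      · exact absurd h1 (lt_irrefl _)
  · intro z x w hz hzx _
    rcases hzx with ⟨rfl, -⟩ | ⟨rfl, -⟩
    · exact absurd (by simp) hz
    · exact absurd (by simp) hz
  · intro p q hpq w _ hw h1
    obtain ⟨rfl, rfl⟩ := con_pair hpq
    refine hO.oab w ?_ ?_
    · rintro rfl
      exact absurd h1 (lt_irrefl _)
    · rintro rfl
      exact hw (Or.inl ⟨rfl, rfl⟩)
  · intro p q hpq w _ hw h1
    obtain ⟨rfl, rfl⟩ := con_pair hpq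
    refine hO.oab w ?_ ?_
    · rintro rfl
      exact hw (Or.inr ⟨rfl, rfl⟩)
    · rintro rfl
      exact absurd h1 (lt_irrefl _)

end Pool.Agent.SGE.H2
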